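import Mathlib

/-!
# MP_ae7024_an : the optimal sampling rate exponent of FNO-approximable operators

If the law of the mean `∫_Ω u` under `ϱ` has a nonzero part with bounded density, then
`β⋆(K^α(𝒦))_X ≤ α/2`; such `𝒦, ϱ` exist for every `d ≥ 1`.  So the upper bound `1/2` is not sharp
for `α < 1`.
-/

namespace Pool.Agent.Results.MP_ae7024_an.SlowRate

open MeasureTheory Set Filter Topology
open scoped ENNReal ComplexConjugate Real

noncomputable section

/-! ### The setting -/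

/-- `Ω = (0,1)^d`. -/
def Om (d : ℕ) : Set (Fin d → ℝ) := Set.univ.pi fun _ => Set.Ioo 0 1

/-- Lebesgue measure on `Ω`. -/
def muOm (d : ℕ) : Measure (Fin d → ℝ) := volume.restrict (Om d)

instance instProb (d : ℕ) : IsProbabilityMeasure (muOm d) := by
  constructor
  unfold muOm Om
  rw [Measure.restrict_apply_univ, Real.volume_pi_Ioo]
  simp

/-- `𝒰 = 𝒱 = L²(Ω)`. -/
def U (d : ℕ) : Type := Lp ℝ 2 (muOm d)

instance instFact : Fact ((2 : ℝ≥0∞) ≠ ⊤) := ⟨by simp⟩

instance instNACG (d : ℕ) : NormedAddCommGroup (U d) :=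
  (inferInstance : NormedAddCommGroup (Lp ℝ 2 (muOm d)))

instance instIPS (d : ℕ) : InnerProductSpace ℝ (U d) :=
  (inferInstance : InnerProductSpace ℝ (Lp ℝ 2 (muOm d)))

instance instCS (d : ℕ) : CompleteSpace (U d) :=
  (inferInstance : CompleteSpace (Lp ℝ 2 (muOm d)))

instance instSCT (d : ℕ) : SecondCountableTopology (U d) :=
  (inferInstance : SecondCountableTopology (Lp ℝ 2 (muOm d)))

/-- The function underlying an element of `L²(Ω)`. -/
def U.fn {d : ℕ} (u : U d) : (Fin d → ℝ) → ℝ := u.1.cast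

instance instMS (d : ℕ) : MeasurableSpace (U d) := borel _

instance instBS (d : ℕ) : BorelSpace (U d) := ⟨rfl⟩

/-- One layer: a matrix, a bias and the Fourier multipliers, with channels indexed by `ι`. -/
structure Layer (d : ℕ) (ι : Type) where
  /-- the matrix `W` -/
  W : ι → ι → ℝ
  /-- the bias -/
  b : ι → ℝ
  /-- the Fourier multiplier `P(k)` -/
  P : (Fin d → ℤ) → ι → ι → ℂ

/-- `P(k)` vanishes for `‖k‖_∞ ≥ κ`, `P(-k)` is the conjugate of `P(k)`, and all entries of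
`W, b, Re P(k), Im P(k)` are at most `B` in absolute value. -/
structure Layer.Adm {d : ℕ} {ι : Type} (l : Layer d ι) (κ : ℕ) (B : ℝ) : Prop where
  supp : ∀ k : Fin d → ℤ, (∃ a, (κ : ℤ) ≤ |k a|) → ∀ i j, l.P k i j = 0
  symm : ∀ k i j, l.P (-k) i j = conj (l.P k i j)
  W_le : ∀ i j, |l.W i j| ≤ B
  b_le : ∀ i, |l.b i| ≤ B
  re_le : ∀ k i j, |(l.P k i j).re| ≤ B
  im_le : ∀ k i j, |(l.P k i j).im| ≤ B

/-- `v ↦ ReLU(W v + b + F⁻¹(P F v))`. -/
def Layer.app {d : ℕ} {ι : Type} [Fintype ι] (l : Layer d ι) (κ : ℕ)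
    (v : (Fin d → ℝ) → ι → ℝ) : (Fin d → ℝ) → ι → ℝ := fun x i =>
  max 0 (∑ j, l.W i j * v x j + l.b i +
    (∑ k ∈ Fintype.piFinset (fun _ : Fin d => Finset.Ioo (-(κ : ℤ)) κ), ∑ j, l.P k i j *
      (∫ y, (v y j : ℂ) * Complex.exp (-(2 * π * Complex.I * ∑ a, (k a : ℂ) * (y a : ℂ)))
        ∂(muOm d)) * Complex.exp (2 * π * Complex.I * ∑ a, (k a : ℂ) * (x a : ℂ))).re)

/-- A Fourier neural operator: affine lifting `R`, layers, affine projection `Q`. -/
structure FNO (d : ℕ) (ι : Type) where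
  /-- coefficient of `u(x)` in the lifting -/
  Ru : ι → ℝ
  /-- coefficients of `x` in the lifting -/
  Rx : ι → Fin d → ℝ
  /-- constant term of the lifting -/
  Rb : ι → ℝ
  /-- the layers -/
  layers : List (Layer d ι)
  /-- linear part of the projection -/
  Q : ι → ℝ
  /-- constant term of the projection -/
  Qb : ℝ

/-- All parameters are at most `B`, and the layers are admissible. -/
structure FNO.Adm {d : ℕ} {ι : Type} (θ : FNO d ι) (κ : ℕ) (B : ℝ) : Prop where
  Ru_le : ∀ i, |θ.Ru i| ≤ B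
  Rx_le : ∀ i a, |θ.Rx i a| ≤ B
  Rb_le : ∀ i, |θ.Rb i| ≤ B
  lay : ∀ l ∈ θ.layers, l.Adm κ B
  Q_le : ∀ i, |θ.Q i| ≤ B
  Qb_le : |θ.Qb| ≤ B

/-- The operator realised by the network. -/
def FNO.real {d : ℕ} {ι : Type} [Fintype ι] (θ : FNO d ι) (κ : ℕ) (u : (Fin d → ℝ) → ℝ) :
    (Fin d → ℝ) → ℝ := fun x =>
  ∑ i, θ.Q i * (θ.layers.foldl (fun v l => l.app κ v)
    (fun x i => θ.Ru i * u x + ∑ a, θ.Rx i a * x a + θ.Rb i)) x i + θ.Qb

/-- `𝒩_m`: realisations with `max{κ^d, d_c, L} ≤ m` and parameters bounded by `e^m`. -/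
def Net (d m : ℕ) : Set (((Fin d → ℝ) → ℝ) → (Fin d → ℝ) → ℝ) :=
  {Ψ | ∃ (ι : Type) (_ : Fintype ι) (κ : ℕ) (θ : FNO d ι), 1 ≤ κ ∧ κ ^ d ≤ m ∧
    1 ≤ Fintype.card ι ∧ Fintype.card ι ≤ m ∧ 1 ≤ θ.layers.length ∧ θ.layers.length ≤ m ∧
    θ.Adm κ (Real.exp m) ∧ Ψ = θ.real κ}

/-- `e(f,m)`, the uniform approximation error on `𝒦`. -/
def apErr {d : ℕ} (K : Set (U d)) (f : U d → U d) (m : ℕ) : ℝ≥0∞ :=
  ⨅ Ψ ∈ Net d m, ⨆ u ∈ K, eLpNorm (fun x => (f u).fn x - Ψ u.fn x) 2 (muOm d)

/-- `Γ^α(f)`. -/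
def Gam {d : ℕ} (K : Set (U d)) (α : ℝ) (f : U d → U d) : ℝ≥0∞ :=
  max (⨆ u ∈ K, ‖f u‖ₑ) (⨆ m : ℕ, ⨆ _ : 1 ≤ m, (m : ℝ≥0∞) ^ α * apErr K f m)

/-- Scalar multiplication in `L²(Ω)`. -/
def scal {d : ℕ} (t : ℝ) (u : U d) : U d := t • u

/-- The class `K^α(𝒦)`. -/
def ClassK {d : ℕ} (K : Set (U d)) (α : ℝ) : Set (U d → U d) :=
  {f | ContinuousOn f K ∧
    (⨅ t : {t : ℝ // 0 < t ∧ Gam K α (fun u => scal t⁻¹ (f u)) ≤ 1}, ENNReal.ofReal t) ≤ 1}

/-- `f` represents an element of `X = L²_ϱ(𝒰;𝒱)`. -/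
def InX {d : ℕ} (ϱ : Measure (U d)) (f : U d → U d) : Prop := MemLp f 2 ϱ

/-- The distance in `X = L²_ϱ(𝒰;𝒱)`. -/
def distX {d : ℕ} (ϱ : Measure (U d)) (f g : U d → U d) : ℝ≥0∞ := eLpNorm (fun u => f u - g u) 2 ϱ

/-- The sampling width `s_n` of a set `𝓕` of maps defined on `𝒦`, in `L²_ϱ(𝒰;𝒱)`. -/
def width {d : ℕ} (K : Set (U d)) (ϱ : Measure (U d)) (Fs : Set (U d → U d)) (n : ℕ) : ℝ≥0∞ :=
  ⨅ (p : Fin n → K) (D : (Fin n → U d) → (U d → U d)) (_ : ∀ y, InX ϱ (D y)), ⨆ f ∈ Fs,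
    distX ϱ f (D fun i => f (p i))

/-- `β⋆`: the supremum of the `β ≥ 0` for which `n^β s_n` is bounded. -/
def betaStar {d : ℕ} (K : Set (U d)) (ϱ : Measure (U d)) (Fs : Set (U d → U d)) : EReal :=
  sSup {b : EReal | ∃ β : ℝ, 0 ≤ β ∧ b = β ∧ ∃ C : ℝ, ∀ n : ℕ, 1 ≤ n →
    (n : ℝ≥0∞) ^ β * width K ϱ Fs n ≤ ENNReal.ofReal C}

/-- The mean of `u`. -/
def mean {d : ℕ} (u : U d) : ℝ := ∫ x, u.fn x ∂(muOm d)

/-- The law of the mean under `ϱ` has a nonzero part with bounded density. -/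
def HasDensityPart {d : ℕ} (ϱ : Measure (U d)) : Prop :=
  ∃ ν : Measure (U d), ν ≤ ϱ ∧ ν ≠ 0 ∧ ∃ B : ℝ, ∀ a b : ℝ, a ≤ b →
    ν {u | a ≤ mean u ∧ mean u ≤ b} ≤ ENNReal.ofReal (B * (b - a))

/-! ### Basic facts -/

/-- The constant function one. -/
def one' (d : ℕ) : U d :=
  indicatorConstLp 2 MeasurableSet.univ (measure_ne_top (muOm d) univ) (1 : ℝ)

theorem mean_eq_inner {d : ℕ} (u : U d) : mean u = inner ℝ (one' d) u := by
  have h := L2.inner_indicatorConstLp_one (𝕜 := ℝ) (μ := muOm d) MeasurableSet.univ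
    (measure_ne_top (muOm d) univ) (show Lp ℝ 2 (muOm d) from u)
  rw [Measure.restrict_univ] at h
  exact h.symm

theorem mean_continuous (d : ℕ) : Continuous (mean (d := d)) := by
  have : (mean (d := d)) = fun u => inner ℝ (one' d) u := by
    funext u; exact mean_eq_inner u
  rw [this]
  exact continuous_const.inner continuous_id

/-- The constant function. -/
def cst (d : ℕ) (c : ℝ) : U d := (Lp.const 2 (muOm d) c : Lp ℝ 2 (muOm d))

theorem cst_coe (d : ℕ) (c : ℝ) : (cst d c).fn =ᵐ[muOm d] fun _ => c :=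
  Lp.coeFn_const 2 (muOm d) c

theorem cst_norm (d : ℕ) (c : ℝ) : ‖cst d c‖ = |c| := by
  have h := Lp.norm_const' (p := 2) (μ := muOm d) (c := c) (by norm_num) (by norm_num)
  have h2 : ‖cst d c‖ = ‖Lp.const 2 (muOm d) c‖ := rfl
  rw [h2, h]
  simp

theorem cst_continuous (d : ℕ) : Continuous (cst d) :=
  (Lp.constL 2 (muOm d) ℝ : ℝ →L[ℝ] Lp ℝ 2 (muOm d)).continuous

theorem cst_zero (d : ℕ) : cst d 0 = 0 := (Lp.const 2 (muOm d) : ℝ →+ Lp ℝ 2 (muOm d)).map_zero

theorem cst_neg (d : ℕ) (c : ℝ) : cst d (-c) = -cst d c :=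
  (Lp.const 2 (muOm d) : ℝ →+ Lp ℝ 2 (muOm d)).map_neg c

theorem cst_smul (d : ℕ) (c : ℝ) : cst d c = c • cst d 1 := by
  have h1 := (Lp.constL 2 (muOm d) ℝ : ℝ →L[ℝ] Lp ℝ 2 (muOm d)).map_smul c 1
  rw [smul_eq_mul, mul_one] at h1
  exact h1

theorem mean_cst (d : ℕ) (c : ℝ) : mean (cst d c) = c := by
  unfold mean
  rw [integral_congr_ae (cst_coe d c)]
  simp

/-! ### Tents -/

/-- coefficients of the tent -/
def coef (η : ℝ) : Fin 3 → ℝ := ![1 / η, -2 / η, 1 / η]

/-- shifts of the tent -/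
def shft (η : ℝ) : Fin 3 → ℝ := ![-η, 0, η]

/-- The tent function as a combination of three ReLUs. -/
def tent (η y : ℝ) : ℝ := ∑ s, coef η s * max 0 (y - shft η s)

theorem tent_eq (η y : ℝ) (hη : 0 < η) :
    tent η y = (max 0 (y + η) - 2 * max 0 y + max 0 (y - η)) / η := by
  simp only [tent, coef, shft, Fin.sum_univ_three, Matrix.cons_val_zero, Matrix.cons_val_one,
    Matrix.cons_val]
  simp only [sub_neg_eq_add, sub_zero]
  field_simp
  ring

theorem tent_nonneg {η : ℝ} (hη : 0 < η) (y : ℝ) : 0 ≤ tent η y := by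
  rw [tent_eq η y hη]
  apply div_nonneg _ hη.le
  rcases le_total 0 y with h | h
  · rw [max_eq_right h, max_eq_right (by linarith : (0 : ℝ) ≤ y + η)]
    linarith [le_max_right 0 (y - η)]
  · rw [max_eq_left h]
    linarith [le_max_left 0 (y - η), le_max_left 0 (y + η)]

theorem tent_zero {η : ℝ} (hη : 0 < η) : tent η 0 = 1 := by
  rw [tent_eq η 0 hη]
  rw [zero_add, zero_sub, max_eq_right hη.le, max_self, max_eq_left (by linarith)]
  field_simp
  ring

theorem tent_far {η y : ℝ} (hη : 0 < η) (h : η ≤ |y|) : tent η y = 0 := by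
  rw [tent_eq η y hη]
  rcases le_total 0 y with h1 | h1
  · rw [abs_of_nonneg h1] at h
    rw [max_eq_right h1, max_eq_right (by linarith : (0 : ℝ) ≤ y + η),
      max_eq_right (by linarith : (0 : ℝ) ≤ y - η)]
    field_simp
    ring
  · rw [abs_of_nonpos h1] at h
    rw [max_eq_left h1, max_eq_left (by linarith : y + η ≤ 0),
      max_eq_left (by linarith : y - η ≤ 0)]
    simp

/-! ### The network -/

/-- The channels: `none` carries the mean, `some none` the running sum, the others ReLUs. -/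
abbrev Ch (k : ℕ) := Option (Option (Fin k × Fin 3))

/-- First layer: computes the mean. -/
def lay0 (d k : ℕ) (R : ℝ) : Layer d (Ch k) where
  W := fun _ _ => 0
  b := fun i => if i = none then R else 0
  P := fun m i j => if m = 0 ∧ i = none ∧ j = none then 1 else 0

/-- Middle layers: add the pending tents and start the tents of the next block. -/
def lay1 (d k : ℕ) (R η : ℝ) (p : Fin k → ℝ) : Layer d (Ch k) where
  W := fun i j => match i, j with
    | none, none => 1
    | some none, some none => 1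
    | some none, some (some (_, s)) => coef η s
    | some (some _), none => 1
    | _, _ => 0
  b := fun i => match i with
    | some (some (j, s)) => -R - p j - shft η s
    | _ => 0
  P := fun _ _ _ => 0

/-- Last layer: `ReLU(1 - sum)`. -/
def lay2 (d k : ℕ) (η : ℝ) : Layer d (Ch k) where
  W := fun i j => match i, j with
    | none, some none => -1
    | none, some (some (_, s)) => -coef η s
    | _, _ => 0
  b := fun i => if i = none then 1 else 0
  P := fun _ _ _ => 0

/-- The pending sum of a state. -/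
def H {k : ℕ} (η : ℝ) (w : Ch k → ℝ) : ℝ :=
  w (some none) + ∑ j : Fin k, ∑ s : Fin 3, coef η s * w (some (some (j, s)))

theorem app_of_P_zero {d : ℕ} {ι : Type} [Fintype ι] (l : Layer d ι) (κ : ℕ)
    (hP : ∀ k i j, l.P k i j = 0) (v : (Fin d → ℝ) → ι → ℝ) (x : Fin d → ℝ) (i : ι) :
    l.app κ v x i = max 0 (∑ j, l.W i j * v x j + l.b i) := by
  unfold Layer.app
  simp [hP]

theorem sum_ch {k : ℕ} (F : Ch k → ℝ) : ∑ i, F i = F none + (F (some none) +
    ∑ j : Fin k, ∑ s : Fin 3, F (some (some (j, s)))) := by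
  rw [Fintype.sum_option, Fintype.sum_option, Fintype.sum_prod_type]

theorem lay0_app {d k : ℕ} {R : ℝ} (_hR : 0 ≤ R) (v : (Fin d → ℝ) → Ch k → ℝ) (t : ℝ)
    (ht : ∫ y, v y none ∂(muOm d) = t) (htR : 0 ≤ t + R) (x : Fin d → ℝ) :
    (lay0 d k R).app 1 v x none = t + R ∧ H 1 ((lay0 d k R).app 1 v x) = 0 ∧
    (∀ i, i ≠ none → (lay0 d k R).app 1 v x i = 0) := by
  have hbox : Fintype.piFinset (fun _ : Fin d => Finset.Ioo (-((1 : ℕ) : ℤ)) ((1 : ℕ) : ℤ)) =
      {0} := by
    ext m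
    simp only [Fintype.mem_piFinset, Finset.mem_Ioo, Finset.mem_singleton]
    constructor
    · intro h
      funext a
      have := h a
      simp only [Pi.zero_apply]
      push_cast at this
      omega
    · rintro rfl a
      simp
  have h0 : ∀ i, i ≠ none → (lay0 d k R).app 1 v x i = 0 := by
    intro i hi
    simp [Layer.app, lay0, hi]
  have h3 : (∑ j : Ch k, (lay0 d k R).P 0 none j *
      (∫ y, (v y j : ℂ) * Complex.exp (-(2 * π * Complex.I *
        ∑ a, (((0 : Fin d → ℤ) a : ℤ) : ℂ) * (y a : ℂ))) ∂(muOm d)) *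
      Complex.exp (2 * π * Complex.I * ∑ a, (((0 : Fin d → ℤ) a : ℤ) : ℂ) * (x a : ℂ))) =
      (t : ℂ) := by
    rw [Finset.sum_eq_single none]
    · have h2 : ∫ y, ((v y none : ℝ) : ℂ) ∂(muOm d) = (t : ℂ) := by
        rw [integral_complex_ofReal, ht]
      simp [lay0, h2]
    · intro j _ hj
      simp [lay0, hj]
    · intro h
      exact absurd (Finset.mem_univ _) h
  have h1 : (lay0 d k R).app 1 v x none = t + R := by
    unfold Layer.app
    rw [hbox, Finset.sum_singleton, h3]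
    simp only [lay0, zero_mul, Finset.sum_const_zero, zero_add, if_true, Complex.ofReal_re]
    rw [max_eq_right (by linarith)]
    ring
  refine ⟨h1, ?_, h0⟩
  unfold H
  rw [h0 _ (by simp)]
  rw [zero_add]
  apply Finset.sum_eq_zero
  intro j _
  apply Finset.sum_eq_zero
  intro s _
  rw [h0 _ (by simp), mul_zero]

theorem lay1_app {d k : ℕ} {R η t : ℝ} (p : Fin k → ℝ) (v : (Fin d → ℝ) → Ch k → ℝ)
    (x : Fin d → ℝ) (hT : v x none = t + R) (htR : 0 ≤ t + R) (hH : 0 ≤ H η (v x)) :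
    (lay1 d k R η p).app 1 v x none = t + R ∧
    H η ((lay1 d k R η p).app 1 v x) = H η (v x) + ∑ j, tent η (t - p j) := by
  have hP : ∀ m i j, (lay1 d k R η p).P m i j = 0 := fun _ _ _ => rfl
  have h1 : (lay1 d k R η p).app 1 v x none = t + R := by
    rw [app_of_P_zero _ _ hP, sum_ch]
    simp only [lay1, one_mul, zero_mul, Finset.sum_const_zero, add_zero, hT]
    exact max_eq_right htR
  have h2 : (lay1 d k R η p).app 1 v x (some none) = H η (v x) := by
    rw [app_of_P_zero _ _ hP, sum_ch]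
    simp only [lay1, one_mul, zero_mul, add_zero, zero_add]
    exact max_eq_right hH
  have h3 : ∀ j s, (lay1 d k R η p).app 1 v x (some (some (j, s))) =
      max 0 (t - p j - shft η s) := by
    intro j s
    rw [app_of_P_zero _ _ hP, sum_ch]
    simp only [lay1, one_mul, zero_mul, Finset.sum_const_zero, add_zero, hT]
    congr 1
    ring
  refine ⟨h1, ?_⟩
  conv_lhs => unfold H
  rw [h2]
  congr 1
  apply Finset.sum_congr rfl
  intro j _
  unfold tent
  apply Finset.sum_congr rfl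
  intro s _
  rw [h3]

theorem lay2_app {d k : ℕ} {η : ℝ} (v : (Fin d → ℝ) → Ch k → ℝ) (x : Fin d → ℝ) :
    (lay2 d k η).app 1 v x none = max 0 (1 - H η (v x)) := by
  have hP : ∀ m i j, (lay2 d k η).P m i j = 0 := fun _ _ _ => rfl
  rw [app_of_P_zero _ _ hP, sum_ch]
  simp only [lay2, zero_mul, zero_add, if_true, neg_mul, one_mul]
  congr 1
  unfold H
  simp only [Finset.sum_neg_distrib]
  ring

theorem fold_lay1 {d k : ℕ} {R η t : ℝ} (hη : 0 < η) (htR : 0 ≤ t + R) :
    ∀ (bl : List (Fin k → ℝ)) (v : (Fin d → ℝ) → Ch k → ℝ), (∀ x, v x none = t + R) →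
    ∀ h : ℝ, 0 ≤ h → (∀ x, H η (v x) = h) →
    (∀ x, H η ((bl.map (lay1 d k R η)).foldl (fun v l => l.app 1 v) v x) =
      h + (bl.map (fun p => ∑ j, tent η (t - p j))).sum) := by
  intro bl
  induction bl with
  | nil =>
    intro v _ h _ hH x
    simp [hH]
  | cons p bl ih =>
    intro v hT h hh hH x
    simp only [List.map_cons, List.foldl_cons, List.sum_cons]
    have h1 := fun x => lay1_app (R := R) (η := η) p v x (hT x) htR (by rw [hH x]; exact hh)
    have h2 := ih ((lay1 d k R η p).app 1 v) (fun x => (h1 x).1)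
      (h + ∑ j, tent η (t - p j))
      (add_nonneg hh (Finset.sum_nonneg fun j _ => tent_nonneg hη _))
      (fun x => by rw [(h1 x).2, hH x]) x
    rw [h2, add_assoc]

/-- The network with amplitude `A` and blocks `bl`. -/
def theNet (d k : ℕ) (R η A : ℝ) (bl : List (Fin k → ℝ)) : FNO d (Ch k) where
  Ru := fun i => if i = none then 1 else 0
  Rx := fun _ _ => 0
  Rb := fun _ => 0
  layers := lay0 d k R :: (bl.map (lay1 d k R η) ++ [lay2 d k η])
  Q := fun i => if i = none then A else 0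
  Qb := 0

/-- The function computed by the network. -/
def gfun {k : ℕ} (η : ℝ) (bl : List (Fin k → ℝ)) (t : ℝ) : ℝ :=
  max 0 (1 - (bl.map (fun p => ∑ j, tent η (t - p j))).sum)

theorem theNet_real {d k : ℕ} {R η A : ℝ} (hη : 0 < η) (hR : 0 ≤ R) (bl : List (Fin k → ℝ))
    (u : (Fin d → ℝ) → ℝ) (htR : 0 ≤ (∫ y, u y ∂(muOm d)) + R) (x : Fin d → ℝ) :
    (theNet d k R η A bl).real 1 u x = A * gfun η bl (∫ y, u y ∂(muOm d)) := by
  unfold FNO.real
  rw [Finset.sum_eq_single none]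
  · simp only [theNet, if_true, add_zero, zero_mul, Finset.sum_const_zero, List.foldl_cons,
      List.foldl_append, List.foldl_nil]
    rw [lay2_app]
    unfold gfun
    congr 3
    have h0 := fun x => lay0_app (d := d) (k := k) hR
      (fun x i => (if i = none then (1 : ℝ) else 0) * u x) (∫ y, u y ∂(muOm d)) (by simp) htR x
    have hH : ∀ x, H η ((lay0 d k R).app 1
        (fun x i => (if i = none then (1 : ℝ) else 0) * u x) x) = 0 := by
      intro x
      unfold H
      rw [(h0 x).2.2 _ (by simp), zero_add]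
      apply Finset.sum_eq_zero
      intro j _
      apply Finset.sum_eq_zero
      intro s _
      rw [(h0 x).2.2 _ (by simp), mul_zero]
    rw [fold_lay1 hη htR bl _ (fun x => (h0 x).1) 0 le_rfl hH x, zero_add]
  · intro i _ hi
    simp [theNet, hi]
  · intro h
    exact absurd (Finset.mem_univ _) h

/-! ### Admissibility -/

theorem coef_le {η : ℝ} (hη : 0 < η) (s : Fin 3) : |coef η s| ≤ 2 / η := by
  have h1 : 1 / η ≤ 2 / η := by gcongr; norm_num
  have h2 : 0 < 1 / η := by positivity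
  have h3 : 0 < 2 / η := by positivity
  fin_cases s
  · simp only [coef, Fin.zero_eta, Matrix.cons_val_zero]
    rw [abs_of_pos h2]; exact h1
  · simp only [coef, Fin.mk_one, Matrix.cons_val_one, Matrix.cons_val_zero]
    rw [neg_div, abs_neg, abs_of_pos h3]
  · simp only [coef, Fin.reduceFinMk, Matrix.cons_val]
    rw [abs_of_pos h2]; exact h1

theorem shft_le {η : ℝ} (hη : 0 < η) (s : Fin 3) : |shft η s| ≤ η := by
  fin_cases s
  · simp [shft, abs_of_pos hη]
  · simp [shft, hη.le]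
  · simp [shft, abs_of_pos hη]

theorem lay0_adm {d k : ℕ} {R B : ℝ} (hR : 0 ≤ R) (hB : 1 ≤ B) (hRB : R ≤ B) :
    (lay0 d k R).Adm 1 B := by
  have hB0 : 0 ≤ B := by linarith
  constructor
  · rintro m ⟨a, ha⟩ i j
    have hm : m ≠ 0 := by
      rintro rfl
      simp at ha
    simp [lay0, hm]
  · intro m i j
    simp only [lay0, neg_eq_zero]
    split_ifs <;> simp
  · intro i j; simp [lay0, hB0]
  · intro i
    simp only [lay0]
    split_ifs
    · rwa [abs_of_nonneg hR]
    · simpa using hB0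
  · intro m i j
    simp only [lay0]
    split_ifs
    · simpa using hB
    · simpa using hB0
  · intro m i j
    simp only [lay0]
    split_ifs
    · simpa using hB0
    · simpa using hB0

theorem lay1_adm {d k : ℕ} {R η B : ℝ} (hη : 0 < η) (hR : 0 ≤ R) (hB : 1 ≤ B) (hηB : 2 / η ≤ B)
    (p : Fin k → ℝ) (hp : ∀ j, R + |p j| + η ≤ B) : (lay1 d k R η p).Adm 1 B := by
  have hB0 : 0 ≤ B := by linarith
  constructor
  · intro m _ i j; rfl
  · intro m i j; simp [lay1]
  · intro i j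
    rcases i with _ | _ | ⟨j1, s1⟩ <;> rcases j with _ | _ | ⟨j2, s2⟩ <;>
      simp only [lay1, abs_zero, abs_one] <;>
      first
        | exact hB0
        | exact hB
        | exact (coef_le hη _).trans hηB
  · intro i
    rcases i with _ | _ | ⟨j1, s1⟩
    · simpa [lay1] using hB0
    · simpa [lay1] using hB0
    · simp only [lay1]
      have h1 := shft_le hη s1
      have h2 := hp j1
      calc |-R - p j1 - shft η s1| ≤ |-R - p j1| + |shft η s1| := abs_sub _ _
        _ ≤ (|-R| + |p j1|) + |shft η s1| := by gcongr; exact abs_sub _ _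
        _ ≤ B := by rw [abs_neg, abs_of_nonneg hR]; linarith
  · intro m i j; simpa [lay1] using hB0
  · intro m i j; simpa [lay1] using hB0

theorem lay2_adm {d k : ℕ} {η B : ℝ} (hη : 0 < η) (hB : 1 ≤ B) (hηB : 2 / η ≤ B) :
    (lay2 d k η).Adm 1 B := by
  have hB0 : 0 ≤ B := by linarith
  constructor
  · intro m _ i j; rfl
  · intro m i j; simp [lay2]
  · intro i j
    rcases i with _ | _ | ⟨j1, s1⟩ <;> rcases j with _ | _ | ⟨j2, s2⟩ <;>
      simp only [lay2, abs_zero, abs_one, abs_neg] <;>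
      first
        | exact hB0
        | exact hB
        | exact (coef_le hη _).trans hηB
  · intro i
    simp only [lay2]
    split_ifs
    · simpa using hB
    · simpa using hB0
  · intro m i j; simpa [lay2] using hB0
  · intro m i j; simpa [lay2] using hB0

theorem theNet_adm {d k : ℕ} {R η A B : ℝ} (hη : 0 < η) (hR : 0 ≤ R) (hB : 1 ≤ B)
    (hRB : R ≤ B) (hηB : 2 / η ≤ B) (hA : |A| ≤ B) (bl : List (Fin k → ℝ))
    (hp : ∀ p ∈ bl, ∀ j, R + |p j| + η ≤ B) : (theNet d k R η A bl).Adm 1 B := by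
  have hB0 : 0 ≤ B := by linarith
  constructor
  · intro i
    simp only [theNet]
    split_ifs
    · simpa using hB
    · simpa using hB0
  · intro i a; simpa [theNet] using hB0
  · intro i; simpa [theNet] using hB0
  · intro l hl
    simp only [theNet, List.mem_cons, List.mem_append, List.mem_map, List.not_mem_nil,
      or_false] at hl
    rcases hl with rfl | ⟨p, hp', rfl⟩ | rfl
    · exact lay0_adm hR hB hRB
    · exact lay1_adm hη hR hB hηB p (hp p hp')
    · exact lay2_adm hη hB hηB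
  · intro i
    simp only [theNet]
    split_ifs
    · exact hA
    · simpa using hB0
  · simpa [theNet] using hB0

theorem theNet_mem {d k m : ℕ} {R η A : ℝ} (hη : 0 < η) (hR : 0 ≤ R) (hkm : 3 * k + 2 ≤ m)
    (hRB : R ≤ Real.exp m) (hηB : 2 / η ≤ Real.exp m) (hA : |A| ≤ Real.exp m)
    (bl : List (Fin k → ℝ)) (hbl : bl.length = k)
    (hp : ∀ p ∈ bl, ∀ j, R + |p j| + η ≤ Real.exp m) :
    (theNet d k R η A bl).real 1 ∈ Net d m := by
  refine ⟨Ch k, inferInstance, 1, theNet d k R η A bl, le_rfl, ?_, ?_, ?_, ?_, ?_,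
    theNet_adm hη hR (Real.one_le_exp (by positivity)) hRB hηB hA bl hp, rfl⟩
  · rw [one_pow]; omega
  · simp only [Fintype.card_option]; omega
  · simp only [Fintype.card_option, Fintype.card_prod, Fintype.card_fin]; omega
  · simp [theNet]
  · simp only [theNet, List.length_cons, List.length_append, List.length_map, List.length_nil,
      hbl]
    omega

theorem zero_mem_Net {d m : ℕ} (hm : 1 ≤ m) : (fun _ _ => (0 : ℝ)) ∈ Net d m := by
  have hB0 : 0 ≤ Real.exp m := (Real.exp_pos _).le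
  let l0 : Layer d (Fin 1) := ⟨fun _ _ => 0, fun _ => 0, fun _ _ _ => 0⟩
  refine ⟨Fin 1, inferInstance, 1, ⟨fun _ => 0, fun _ _ => 0, fun _ => 0, [l0], fun _ => 0, 0⟩,
    le_rfl, ?_, ?_, ?_, ?_, ?_, ?_, ?_⟩
  · rwa [one_pow]
  · simp
  · simpa using hm
  · simp
  · simpa using hm
  · constructor
    · intro i; simpa using hB0
    · intro i a; simpa using hB0
    · intro i; simpa using hB0
    · intro l hl
      simp only [List.mem_singleton] at hl
      rw [hl]
      constructor <;> intros <;> simp [l0, hB0]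
    · intro i; simpa using hB0
    · simpa using hB0
  · funext u x
    simp [FNO.real]

/-! ### The fooling functions -/

/-- The fooling map. -/
def foolF {d k : ℕ} (A η : ℝ) (bl : List (Fin k → ℝ)) (u : U d) : U d :=
  cst d (A * gfun η bl (mean u))

theorem tent_continuous {η : ℝ} : Continuous (tent η) := by
  unfold tent
  exact continuous_finsetSum _ fun s _ =>
    continuous_const.mul (continuous_const.max (continuous_id.sub continuous_const))

theorem gfun_continuous {k : ℕ} {η : ℝ} (bl : List (Fin k → ℝ)) : Continuous (gfun η bl) := by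
  unfold gfun
  refine continuous_const.max (continuous_const.sub ?_)
  exact continuous_list_sum bl fun p _ => continuous_finsetSum _ fun j _ =>
    tent_continuous.comp (continuous_id.sub continuous_const)

theorem foolF_continuous {d k : ℕ} (A η : ℝ) (bl : List (Fin k → ℝ)) :
    Continuous (foolF (d := d) A η bl) :=
  (cst_continuous d).comp (continuous_const.mul ((gfun_continuous bl).comp (mean_continuous d)))

theorem gfun_nonneg {k : ℕ} {η : ℝ} (bl : List (Fin k → ℝ)) (t : ℝ) : 0 ≤ gfun η bl t :=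
  le_max_left _ _

theorem gfun_le_one {k : ℕ} {η : ℝ} (hη : 0 < η) (bl : List (Fin k → ℝ)) (t : ℝ) :
    gfun η bl t ≤ 1 := by
  unfold gfun
  apply max_le zero_le_one
  have : 0 ≤ (bl.map (fun p => ∑ j, tent η (t - p j))).sum := by
    apply List.sum_nonneg
    intro y hy
    rw [List.mem_map] at hy
    obtain ⟨p, _, rfl⟩ := hy
    exact Finset.sum_nonneg fun j _ => tent_nonneg hη _
  linarith

theorem foolF_norm_le {d k : ℕ} {A η : ℝ} (hη : 0 < η) (bl : List (Fin k → ℝ)) (u : U d) :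
    ‖foolF A η bl u‖ₑ ≤ ENNReal.ofReal |A| := by
  rw [← ofReal_norm]
  apply ENNReal.ofReal_le_ofReal
  unfold foolF
  rw [cst_norm, abs_mul, abs_of_nonneg (gfun_nonneg bl _)]
  exact mul_le_of_le_one_right (abs_nonneg _) (gfun_le_one hη bl _)

theorem apErr_le {d k : ℕ} {K : Set (U d)} {A η : ℝ} (hη : 0 < η) (bl : List (Fin k → ℝ))
    {m : ℕ} (hm : 1 ≤ m) : apErr K (foolF A η bl) m ≤ ENNReal.ofReal |A| := by
  refine (iInf₂_le _ (zero_mem_Net hm)).trans ?_
  refine iSup₂_le fun u _ => ?_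
  simp only [sub_zero]
  have h : eLpNorm (fun x => (foolF A η bl u).fn x) 2 (muOm d) =
      ‖foolF A η bl u‖ₑ := (Lp.enorm_def (show Lp ℝ 2 (muOm d) from foolF A η bl u)).symm
  rw [h]
  exact foolF_norm_le hη bl u

theorem apErr_eq_zero {d k : ℕ} {K : Set (U d)} {R A η : ℝ} (hη : 0 < η) (hR : 0 ≤ R)
    (bl : List (Fin k → ℝ)) {m : ℕ} (hmem : (theNet d k R η A bl).real 1 ∈ Net d m)
    (hK : ∀ u ∈ K, |mean u| ≤ R) : apErr K (foolF A η bl) m = 0 := by
  refine le_antisymm ((iInf₂_le _ hmem).trans (iSup₂_le fun u hu => ?_)) bot_le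
  have h1 : (fun x => (foolF A η bl u).fn x -
      (theNet d k R η A bl).real 1 u.fn x) =ᵐ[muOm d] 0 := by
    filter_upwards [cst_coe d (A * gfun η bl (mean u))] with x hx
    have h2 : 0 ≤ (∫ y, u.fn y ∂(muOm d)) + R := by
      have := (abs_le.1 (hK u hu)).1
      unfold mean at this
      linarith
    rw [theNet_real hη hR bl _ h2 x]
    unfold foolF
    rw [hx]
    simp [mean]
  rw [eLpNorm_congr_ae h1]
  simp

theorem foolF_mem {d k : ℕ} {K : Set (U d)} {R A η α : ℝ} (hη : 0 < η) (hR : 0 ≤ R)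
    (hα : 0 < α) (hA : |A| * ((3 * k + 2 : ℕ) : ℝ) ^ α ≤ 1)
    (hRB : R ≤ Real.exp (3 * k + 2 : ℕ)) (hηB : 2 / η ≤ Real.exp (3 * k + 2 : ℕ))
    (bl : List (Fin k → ℝ)) (hbl : bl.length = k)
    (hp : ∀ p ∈ bl, ∀ j, R + |p j| + η ≤ Real.exp (3 * k + 2 : ℕ))
    (hK : ∀ u ∈ K, |mean u| ≤ R) : foolF A η bl ∈ ClassK K α := by
  have hM1 : (1 : ℝ) ≤ ((3 * k + 2 : ℕ) : ℝ) := by exact_mod_cast (by omega : 1 ≤ 3 * k + 2)
  have hA1 : |A| ≤ 1 := by
    have h1 : (1 : ℝ) ≤ ((3 * k + 2 : ℕ) : ℝ) ^ α := Real.one_le_rpow hM1 hα.le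
    nlinarith [abs_nonneg A]
  refine ⟨(foolF_continuous A η bl).continuousOn, ?_⟩
  have hG : Gam K α (fun u => scal (1 : ℝ)⁻¹ (foolF A η bl u)) ≤ 1 := by
    unfold scal
    simp only [inv_one, one_smul]
    unfold Gam
    refine max_le (iSup₂_le fun u _ => ?_) (iSup₂_le fun m hm => ?_)
    · refine (foolF_norm_le hη bl u).trans ?_
      rw [← ENNReal.ofReal_one]
      exact ENNReal.ofReal_le_ofReal hA1
    · rcases le_or_gt (3 * k + 2) m with h | h
      · have hmm : ((3 * k + 2 : ℕ) : ℝ) ≤ m := by exact_mod_cast h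
        have he : Real.exp (3 * k + 2 : ℕ) ≤ Real.exp m := Real.exp_le_exp.2 hmm
        have hmem : (theNet d k R η A bl).real 1 ∈ Net d m :=
          theNet_mem hη hR h (hRB.trans he) (hηB.trans he)
            (hA1.trans (Real.one_le_exp (by positivity))) bl hbl
            (fun p hp' j => (hp p hp' j).trans he)
        rw [apErr_eq_zero hη hR bl hmem hK, mul_zero]
        exact zero_le_one
      · have hm0 : (0 : ℝ) < m := by exact_mod_cast hm
        have h1 : (m : ℝ≥0∞) ^ α = ENNReal.ofReal ((m : ℝ) ^ α) := by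
          rw [← ENNReal.ofReal_rpow_of_pos hm0, ENNReal.ofReal_natCast]
        rw [h1]
        calc ENNReal.ofReal ((m : ℝ) ^ α) * apErr K (foolF A η bl) m
            ≤ ENNReal.ofReal ((m : ℝ) ^ α) * ENNReal.ofReal |A| := by
              gcongr; exact apErr_le hη bl hm
          _ = ENNReal.ofReal ((m : ℝ) ^ α * |A|) := (ENNReal.ofReal_mul (by positivity)).symm
          _ ≤ ENNReal.ofReal 1 := by
              apply ENNReal.ofReal_le_ofReal
              have h2 : (m : ℝ) ^ α ≤ ((3 * k + 2 : ℕ) : ℝ) ^ α := by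
                apply Real.rpow_le_rpow hm0.le _ hα.le
                exact_mod_cast h.le
              nlinarith [abs_nonneg A]
          _ = 1 := ENNReal.ofReal_one
  refine (iInf_le _ ⟨(1 : ℝ), one_pos, hG⟩).trans ?_
  simp

theorem neg_foolF {d k : ℕ} (A η : ℝ) (bl : List (Fin k → ℝ)) :
    (fun u : U d => -foolF A η bl u) = foolF (-A) η bl := by
  funext u
  unfold foolF
  rw [neg_mul, cst_neg]

theorem width_ge {d n : ℕ} {K : Set (U d)} {ϱ : Measure (U d)} {Fs : Set (U d → U d)}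
    {c : ℝ≥0∞} (h : ∀ p : Fin n → K, ∃ f : U d → U d, f ∈ Fs ∧ (fun u => -f u) ∈ Fs ∧
      (∀ i, f (p i) = 0) ∧ Continuous f ∧ c ≤ eLpNorm f 2 ϱ) : c ≤ width K ϱ Fs n := by
  refine le_iInf₂ fun p D => le_iInf fun hDX => ?_
  obtain ⟨f, hf, hf', h0, hc, hle⟩ := h p
  refine hle.trans ?_
  set S := ⨆ f ∈ Fs, distX ϱ f (D fun i => f (p i)) with hS
  have e1 : (fun i => f (p i)) = fun _ => 0 := funext h0
  have e2 : (fun i => (fun u => -f u) (p i)) = fun _ => 0 := by
    funext i; simp [h0 i]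
  have h1 : eLpNorm (fun u => f u - D (fun _ => 0) u) 2 ϱ ≤ S := by
    have := le_iSup₂ (f := fun (f : U d → U d) (_ : f ∈ Fs) =>
      distX ϱ f (D fun i => f (p i))) f hf
    simp only [e1] at this
    exact this
  have h2 : eLpNorm (fun u => -f u - D (fun _ => 0) u) 2 ϱ ≤ S := by
    have := le_iSup₂ (f := fun (f : U d → U d) (_ : f ∈ Fs) =>
      distX ϱ f (D fun i => f (p i))) (fun u => -f u) hf'
    simp only [e2] at this
    exact this
  have hm : AEStronglyMeasurable f ϱ := hc.aestronglyMeasurable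
  have hD : AEStronglyMeasurable (fun u => D (fun _ => 0) u) ϱ := (hDX _).1
  have h3 : eLpNorm (fun u => (2 : ℝ) • f u) 2 ϱ ≤ S + S := by
    have e3 : (fun u => (2 : ℝ) • f u) = (fun u => f u - D (fun _ => 0) u) -
        (fun u => -f u - D (fun _ => 0) u) := by
      funext u
      simp only [Pi.sub_apply]
      rw [two_smul]
      abel
    rw [e3]
    exact (eLpNorm_sub_le (hm.sub hD) (hm.neg.sub hD) (by norm_num)).trans (add_le_add h1 h2)
  have h4 : eLpNorm (fun u => (2 : ℝ) • f u) 2 ϱ = 2 * eLpNorm f 2 ϱ := by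
    have := eLpNorm_const_smul (2 : ℝ) f 2 ϱ
    rw [show (fun u => (2 : ℝ) • f u) = (2 : ℝ) • f from rfl, this]
    congr 1
    rw [← ofReal_norm]
    simp
  rw [h4, ← two_mul] at h3
  exact (ENNReal.mul_le_mul_iff_right (by norm_num) (by norm_num)).1 h3

/-! ### The lower bound for the widths -/

theorem eLpNorm_foolF_ge {d k : ℕ} {A η : ℝ} (bl : List (Fin k → ℝ)) (ϱ : Measure (U d)) :
    ENNReal.ofReal |A| * ϱ {u | gfun η bl (mean u) = 1} ^ (1 / 2 : ℝ) ≤
      eLpNorm (foolF A η bl) 2 ϱ := by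
  have hS : MeasurableSet {u : U d | gfun η bl (mean u) = 1} :=
    (isClosed_eq ((gfun_continuous bl).comp (mean_continuous d)) continuous_const).measurableSet
  have h1 := eLpNorm_indicator_const (μ := ϱ) (p := 2) (c := A) hS (by norm_num) (by norm_num)
  have h2 : ‖A‖ₑ = ENNReal.ofReal |A| := by
    rw [← ofReal_norm, Real.norm_eq_abs]
  have h3 : (1 / (2 : ℝ≥0∞).toReal : ℝ) = 1 / 2 := by norm_num
  rw [h2, h3] at h1
  rw [← h1]
  apply eLpNorm_mono
  intro u
  by_cases hu : gfun η bl (mean u) = 1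
  · rw [indicator_of_mem (by exact hu)]
    unfold foolF
    rw [cst_norm, hu, mul_one, Real.norm_eq_abs]
  · rw [indicator_of_notMem (by exact hu), norm_zero]
    exact norm_nonneg _

/-- The blocks attached to `k * k` reals. -/
def blk (k : ℕ) (t : Fin (k * k) → ℝ) : List (Fin k → ℝ) :=
  List.ofFn fun b : Fin k => fun j : Fin k => t (finProdFinEquiv (b, j))

theorem blk_sum (k : ℕ) (t : Fin (k * k) → ℝ) (η y : ℝ) :
    ((blk k t).map (fun p => ∑ j, tent η (y - p j))).sum = ∑ i, tent η (y - t i) := by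
  unfold blk
  rw [List.map_ofFn, List.sum_ofFn]
  simp only [Function.comp_apply]
  rw [← Fintype.sum_prod_type' (f := fun b j => tent η (y - t (finProdFinEquiv (b, j))))]
  exact Equiv.sum_comp finProdFinEquiv (fun i => tent η (y - t i))

theorem gfun_blk_zero {k : ℕ} {η : ℝ} (hη : 0 < η) (t : Fin (k * k) → ℝ) (i : Fin (k * k)) :
    gfun η (blk k t) (t i) = 0 := by
  unfold gfun
  rw [blk_sum]
  apply max_eq_left
  have h1 : tent η (t i - t i) ≤ ∑ i', tent η (t i - t i') :=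
    Finset.single_le_sum (f := fun i' => tent η (t i - t i')) (fun _ _ => tent_nonneg hη _)
      (Finset.mem_univ i)
  rw [sub_self, tent_zero hη] at h1
  linarith

theorem gfun_blk_one {k : ℕ} {η : ℝ} (hη : 0 < η) (t : Fin (k * k) → ℝ) (y : ℝ)
    (h : ∀ i, η ≤ |y - t i|) : gfun η (blk k t) y = 1 := by
  unfold gfun
  rw [blk_sum, Finset.sum_eq_zero fun i _ => tent_far hη (h i)]
  simp

theorem density_bound {d k : ℕ} {η B : ℝ} (hη : 0 < η) (ν : Measure (U d))
    (hB : ∀ a b : ℝ, a ≤ b → ν {u | a ≤ mean u ∧ mean u ≤ b} ≤ ENNReal.ofReal (B * (b - a)))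
    (t : Fin (k * k) → ℝ) :
    ν {u | gfun η (blk k t) (mean u) = 1}ᶜ ≤ ENNReal.ofReal ((k * k : ℕ) * (|B| * (2 * η))) := by
  have h1 : {u : U d | gfun η (blk k t) (mean u) = 1}ᶜ ⊆
      ⋃ i : Fin (k * k), {u | t i - η ≤ mean u ∧ mean u ≤ t i + η} := by
    intro u hu
    rw [mem_compl_iff, mem_ofPred_eq] at hu
    by_contra hcon
    simp only [mem_iUnion, mem_ofPred_eq, not_exists] at hcon
    apply hu
    apply gfun_blk_one hη
    intro i
    have := hcon i
    by_contra h2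
    push Not at h2
    rw [abs_lt] at h2
    exact this ⟨by linarith, by linarith⟩
  calc ν {u | gfun η (blk k t) (mean u) = 1}ᶜ
      ≤ ν (⋃ i : Fin (k * k), {u | t i - η ≤ mean u ∧ mean u ≤ t i + η}) := measure_mono h1
    _ ≤ ∑ i : Fin (k * k), ν {u | t i - η ≤ mean u ∧ mean u ≤ t i + η} :=
        measure_iUnion_fintype_le _ _
    _ ≤ ∑ _i : Fin (k * k), ENNReal.ofReal (|B| * (2 * η)) := by
        apply Finset.sum_le_sum
        intro i _
        refine (hB _ _ (by linarith)).trans (ENNReal.ofReal_le_ofReal ?_)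
        have : t i + η - (t i - η) = 2 * η := by ring
        rw [this]
        gcongr
        exact le_abs_self B
    _ = ENNReal.ofReal ((k * k : ℕ) * (|B| * (2 * η))) := by
        rw [Finset.sum_const, Finset.card_univ, Fintype.card_fin, nsmul_eq_mul,
          ← ENNReal.ofReal_natCast, ← ENNReal.ofReal_mul (by positivity)]

/-- The key lower bound. -/
theorem width_lower {d : ℕ} {K : Set (U d)} (hK : IsCompact K) {ϱ : Measure (U d)}
    [IsProbabilityMeasure ϱ] (hϱ : HasDensityPart ϱ) {α : ℝ} (hα : 0 < α) :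
    ∃ c : ℝ, 0 < c ∧ ∃ k₀ : ℕ, ∀ k : ℕ, k₀ ≤ k →
      ENNReal.ofReal (c * ((3 * k + 2 : ℕ) : ℝ) ^ (-α)) ≤ width K ϱ (ClassK K α) (k * k) := by
  obtain ⟨ν, hν, hν0, B, hB⟩ := hϱ
  -- bound for the means
  obtain ⟨R, hR0, hR⟩ : ∃ R : ℝ, 0 ≤ R ∧ ∀ u ∈ K, |mean u| ≤ R := by
    obtain ⟨R, hR⟩ := hK.exists_bound_of_continuousOn (mean_continuous d).continuousOn
    exact ⟨max R 0, le_max_right _ _, fun u hu => (hR u hu).trans (le_max_left _ _)⟩
  have hfin : ν univ ≠ ∞ := ne_top_of_le_ne_top (measure_ne_top ϱ univ) (hν univ)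
  have hpos : 0 < (ν univ).toReal :=
    ENNReal.toReal_pos (Measure.measure_univ_ne_zero.2 hν0) hfin
  set δ := (ν univ).toReal with hδ
  have hδν : ν univ = ENNReal.ofReal δ := (ENNReal.ofReal_toReal hfin).symm
  -- asymptotics
  have hlim1 : Tendsto (fun k : ℕ => ((k * k : ℕ) : ℝ) *
      (|B| * (2 * (2 * Real.exp (-((3 * k + 2 : ℕ) : ℝ)))))) atTop (𝓝 0) := by
    have h1 : Tendsto (fun x : ℝ => x ^ 2 * Real.exp (-x)) atTop (𝓝 0) :=
      Real.tendsto_pow_mul_exp_neg_atTop_nhds_zero 2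
    have h2 : Tendsto (fun k : ℕ => ((k : ℝ) ^ 2 * Real.exp (-(k : ℝ))) * (4 * |B|)) atTop
        (𝓝 (0 * (4 * |B|))) := (h1.comp tendsto_natCast_atTop_atTop).mul_const _
    rw [zero_mul] at h2
    refine squeeze_zero (fun k => by positivity) (fun k => ?_) h2
    have h3 : Real.exp (-((3 * k + 2 : ℕ) : ℝ)) ≤ Real.exp (-(k : ℝ)) := by
      apply Real.exp_le_exp.2
      push_cast
      have : (0 : ℝ) ≤ k := by positivity
      linarith
    calc ((k * k : ℕ) : ℝ) * (|B| * (2 * (2 * Real.exp (-((3 * k + 2 : ℕ) : ℝ)))))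
        ≤ ((k * k : ℕ) : ℝ) * (|B| * (2 * (2 * Real.exp (-(k : ℝ))))) := by gcongr
      _ = _ := by push_cast; ring
  have hlim2 : Tendsto (fun k : ℕ => Real.exp ((3 * k + 2 : ℕ) : ℝ)) atTop atTop := by
    refine Real.tendsto_exp_atTop.comp ?_
    refine tendsto_natCast_atTop_atTop.comp ?_
    refine tendsto_atTop_mono (fun k => ?_) tendsto_id
    simp only [id]
    omega
  have hev : ∀ᶠ k : ℕ in atTop, ((k * k : ℕ) : ℝ) *
      (|B| * (2 * (2 * Real.exp (-((3 * k + 2 : ℕ) : ℝ))))) ≤ δ / 2 ∧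
      2 * R + 2 ≤ Real.exp ((3 * k + 2 : ℕ) : ℝ) := by
    refine ((hlim1.eventually (gt_mem_nhds (by positivity : (0 : ℝ) < δ / 2))).mono
      (fun k hk => hk.le)).and (hlim2.eventually_ge_atTop _)
  obtain ⟨k₀, hk₀⟩ := eventually_atTop.1 hev
  refine ⟨(δ / 2) ^ (1 / 2 : ℝ), by positivity, k₀, fun k hk => ?_⟩
  obtain ⟨h1, h2⟩ := hk₀ k hk
  set M : ℝ := ((3 * k + 2 : ℕ) : ℝ) with hM
  have hM1 : (1 : ℝ) ≤ M := by rw [hM]; exact_mod_cast (by omega : 1 ≤ 3 * k + 2)
  set η : ℝ := 2 * Real.exp (-M) with hη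
  have hη0 : 0 < η := by positivity
  have hη1 : η ≤ 2 := by
    rw [hη]
    have : Real.exp (-M) ≤ 1 := Real.exp_le_one_iff.2 (by linarith)
    linarith
  set A : ℝ := M ^ (-α) with hA
  have hA0 : 0 < A := by positivity
  have hAα : |A| * M ^ α ≤ 1 := by
    rw [abs_of_pos hA0, hA, ← Real.rpow_add (by linarith)]
    simp
  have hηB : 2 / η ≤ Real.exp M := by
    rw [hη, Real.exp_neg]
    have := Real.exp_pos M
    field_simp
    exact le_rfl
  apply width_ge
  intro p
  set t : Fin (k * k) → ℝ := fun i => mean (p i : U d) with ht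
  have htR : ∀ i, |t i| ≤ R := fun i => hR _ (p i).2
  have hp : ∀ q ∈ blk k t, ∀ j, R + |q j| + η ≤ Real.exp (3 * k + 2 : ℕ) := by
    intro q hq j
    unfold blk at hq
    rw [List.mem_ofFn] at hq
    obtain ⟨b, rfl⟩ := hq
    have := htR (finProdFinEquiv (b, j))
    linarith
  have hbl : (blk k t).length = k := by simp [blk]
  have hmem : ∀ A' : ℝ, |A'| = |A| → foolF A' η (blk k t) ∈ ClassK K α := by
    intro A' hA'
    exact foolF_mem hη0 hR0 hα (by rw [hA']; exact hAα) (by linarith) hηB _ hbl hp hR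
  refine ⟨foolF A η (blk k t), hmem A rfl, ?_, ?_, foolF_continuous _ _ _, ?_⟩
  · rw [neg_foolF]
    exact hmem _ (abs_neg A)
  · intro i
    unfold foolF
    have : mean (p i : U d) = t i := rfl
    rw [this, gfun_blk_zero hη0, mul_zero, cst_zero]
  · refine le_trans ?_ (eLpNorm_foolF_ge (blk k t) ϱ)
    have e1 : ENNReal.ofReal ((δ / 2) ^ (1 / 2 : ℝ) * A) =
        ENNReal.ofReal A * ENNReal.ofReal (δ / 2) ^ (1 / 2 : ℝ) := by
      rw [mul_comm, ENNReal.ofReal_mul hA0.le, ENNReal.ofReal_rpow_of_pos (by positivity)]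
    rw [e1, abs_of_pos hA0]
    refine mul_le_mul' le_rfl (ENNReal.rpow_le_rpow ?_ (by norm_num))
    refine le_trans ?_ (hν _)
    have h3 := density_bound (k := k) hη0 ν hB t
    have h4 : ν univ ≤ ν {u | gfun η (blk k t) (mean u) = 1} +
        ν {u | gfun η (blk k t) (mean u) = 1}ᶜ := by
      rw [← union_compl_self {u : U d | gfun η (blk k t) (mean u) = 1}]
      exact measure_union_le _ _
    have h5 : ν {u | gfun η (blk k t) (mean u) = 1}ᶜ ≤ ENNReal.ofReal (δ / 2) :=
      h3.trans (ENNReal.ofReal_le_ofReal h1)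
    rw [hδν] at h4
    have h6 : ENNReal.ofReal δ = ENNReal.ofReal (δ / 2) + ENNReal.ofReal (δ / 2) := by
      rw [← ENNReal.ofReal_add (by positivity) (by positivity)]
      congr 1; ring
    rw [h6] at h4
    have h7 : ENNReal.ofReal (δ / 2) + ENNReal.ofReal (δ / 2) ≤
        ν {u | gfun η (blk k t) (mean u) = 1} + ENNReal.ofReal (δ / 2) :=
      h4.trans (by gcongr)
    exact (ENNReal.add_le_add_iff_right ENNReal.ofReal_ne_top).1 h7

theorem betaStar_le {d : ℕ} {K : Set (U d)} (hK : IsCompact K) {ϱ : Measure (U d)}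
    [IsProbabilityMeasure ϱ] (hϱ : HasDensityPart ϱ) {α : ℝ} (hα : 0 < α) :
    betaStar K ϱ (ClassK K α) ≤ ((α / 2 : ℝ) : EReal) := by
  obtain ⟨c, hc, k₀, hk₀⟩ := width_lower hK hϱ hα
  apply sSup_le
  rintro b ⟨β, hβ, rfl, C, hC⟩
  rw [EReal.coe_le_coe_iff]
  by_contra hcon
  push Not at hcon
  have hγ : 0 < 2 * β - α := by linarith
  have hlim : Tendsto (fun k : ℕ => c * (5 : ℝ) ^ (-α) * (k : ℝ) ^ (2 * β - α)) atTop atTop :=
    ((tendsto_rpow_atTop hγ).comp tendsto_natCast_atTop_atTop).const_mul_atTop (by positivity)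
  obtain ⟨k, hk1, hk2⟩ := ((hlim.eventually_gt_atTop (max C 0)).and
    (eventually_ge_atTop (max k₀ 1))).exists
  have hkk : k₀ ≤ k := (le_max_left _ _).trans hk2
  have hk1' : 1 ≤ k := (le_max_right _ _).trans hk2
  have hkpos : (0 : ℝ) < k := by exact_mod_cast hk1'
  have h1 := hC (k * k) (Nat.mul_pos hk1' hk1')
  have h2 := hk₀ k hkk
  have hkk0 : (0 : ℝ) < ((k * k : ℕ) : ℝ) := by push_cast; positivity
  have h3 : ((k * k : ℕ) : ℝ≥0∞) ^ β = ENNReal.ofReal (((k * k : ℕ) : ℝ) ^ β) := by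
    rw [← ENNReal.ofReal_rpow_of_pos hkk0, ENNReal.ofReal_natCast]
  have h4 : ENNReal.ofReal (((k * k : ℕ) : ℝ) ^ β * (c * ((3 * k + 2 : ℕ) : ℝ) ^ (-α))) ≤
      ENNReal.ofReal C := by
    rw [ENNReal.ofReal_mul (by positivity)]
    calc _ ≤ ENNReal.ofReal (((k * k : ℕ) : ℝ) ^ β) * width K ϱ (ClassK K α) (k * k) := by gcongr
      _ ≤ _ := by rw [← h3]; exact h1
  have h5 : c * (5 : ℝ) ^ (-α) * (k : ℝ) ^ (2 * β - α) ≤
      ((k * k : ℕ) : ℝ) ^ β * (c * ((3 * k + 2 : ℕ) : ℝ) ^ (-α)) := by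
    have e1 : ((k * k : ℕ) : ℝ) ^ β = (k : ℝ) ^ (2 * β) := by
      rw [Real.rpow_mul hkpos.le]
      congr 1
      push_cast
      rw [Real.rpow_two]
      ring
    have e2 : (5 : ℝ) ^ (-α) * (k : ℝ) ^ (-α) ≤ ((3 * k + 2 : ℕ) : ℝ) ^ (-α) := by
      rw [← Real.mul_rpow (by norm_num) hkpos.le]
      apply Real.rpow_le_rpow_of_nonpos (by positivity)
      · push_cast
        have : (1 : ℝ) ≤ k := by exact_mod_cast hk1'
        linarith
      · linarith
    rw [e1, sub_eq_add_neg, Real.rpow_add hkpos]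
    calc c * (5 : ℝ) ^ (-α) * ((k : ℝ) ^ (2 * β) * (k : ℝ) ^ (-α))
        = (k : ℝ) ^ (2 * β) * (c * ((5 : ℝ) ^ (-α) * (k : ℝ) ^ (-α))) := by ring
      _ ≤ _ := by gcongr
  have h6 := (ENNReal.ofReal_le_ofReal h5).trans h4
  have h7 : c * (5 : ℝ) ^ (-α) * (k : ℝ) ^ (2 * β - α) ≤ C := by
    by_contra h8
    push Not at h8
    have h9 : ENNReal.ofReal C < ENNReal.ofReal (c * (5 : ℝ) ^ (-α) * (k : ℝ) ^ (2 * β - α)) :=
      (ENNReal.ofReal_lt_ofReal_iff (by positivity)).2 h8
    exact absurd h6 (not_le.2 h9)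
  linarith [le_max_left C 0]

/-! ### The example -/

theorem exists_total (d : ℕ) : ∃ w : ℕ → U d, w 0 = cst d 1 ∧ (∀ i, ‖w i‖ ≤ 1) ∧
    ∀ v : U d, v ≠ 0 → ∃ i, inner ℝ (w i) v ≠ 0 := by
  obtain ⟨g, hg⟩ := TopologicalSpace.exists_dense_seq (U d)
  refine ⟨fun i => match i with
    | 0 => cst d 1
    | i + 1 => (1 + ‖g i‖)⁻¹ • g i, rfl, ?_, ?_⟩
  · intro i
    cases i with
    | zero => simp [cst_norm]
    | succ i =>
      simp only
      rw [norm_smul, norm_inv, Real.norm_eq_abs, abs_of_pos (by positivity),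
        inv_mul_le_iff₀ (by positivity)]
      linarith
  · intro v hv
    by_contra hcon
    push Not at hcon
    have h1 : ∀ i, inner ℝ (g i) v = 0 := by
      intro i
      have := hcon (i + 1)
      simp only [real_inner_smul_left, mul_eq_zero] at this
      rcases this with h | h
      · have : (0 : ℝ) < (1 + ‖g i‖)⁻¹ := by positivity
        linarith
      · exact h
    have h2 : ∀ x : U d, inner ℝ x v = 0 := by
      intro x
      exact isClosed_property (p := fun x => inner ℝ x v = 0) hg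
        (isClosed_eq (continuous_id.inner continuous_const) continuous_const) h1 x
    exact hv (inner_self_eq_zero.1 (h2 v))

/-- The parametrisation of the compact convex set. -/
def Phi {d : ℕ} (w : ℕ → U d) (a : ℕ → Icc (-1 : ℝ) 1) : U d :=
  ∑' i, ((a i : ℝ) * (1 / 2) ^ i) • w i

theorem Phi_summable {d : ℕ} {w : ℕ → U d} (hw : ∀ i, ‖w i‖ ≤ 1) (a : ℕ → Icc (-1 : ℝ) 1) :
    Summable fun i => ((a i : ℝ) * (1 / 2) ^ i) • w i := by
  refine Summable.of_norm_bounded summable_geometric_two fun i => ?_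
  rw [norm_smul, norm_mul, norm_pow, Real.norm_eq_abs, Real.norm_eq_abs]
  have h1 : |(a i : ℝ)| ≤ 1 := abs_le.2 (a i).2
  have h2 : |(1 / 2 : ℝ)| = 1 / 2 := by norm_num
  rw [h2]
  have h3 := hw i
  calc |(a i : ℝ)| * (1 / 2) ^ i * ‖w i‖ ≤ 1 * (1 / 2) ^ i * 1 := by gcongr
    _ = (1 / 2) ^ i := by ring

theorem Phi_continuous {d : ℕ} {w : ℕ → U d} (hw : ∀ i, ‖w i‖ ≤ 1) : Continuous (Phi w) := by
  refine continuous_tsum (u := fun i : ℕ => (1 / 2 : ℝ) ^ i) (fun i => ?_)
    summable_geometric_two fun i a => ?_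
  · have h0 : Continuous fun a : ℕ → Icc (-1 : ℝ) 1 => ((a i : Icc (-1 : ℝ) 1) : ℝ) :=
      continuous_subtype_val.comp (continuous_apply i)
    exact (h0.mul continuous_const).smul continuous_const
  · rw [norm_smul, norm_mul, norm_pow, Real.norm_eq_abs, Real.norm_eq_abs]
    have h1 : |(a i : ℝ)| ≤ 1 := abs_le.2 (a i).2
    have h2 : |(1 / 2 : ℝ)| = 1 / 2 := by norm_num
    rw [h2]
    have h3 := hw i
    calc |(a i : ℝ)| * (1 / 2) ^ i * ‖w i‖ ≤ 1 * (1 / 2) ^ i * 1 := by gcongr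
      _ = (1 / 2) ^ i := by ring

theorem Phi_convex {d : ℕ} {w : ℕ → U d} (hw : ∀ i, ‖w i‖ ≤ 1) :
    Convex ℝ (range (Phi w)) := by
  rintro _ ⟨a, rfl⟩ _ ⟨b, rfl⟩ s t hs ht hst
  have hmem : ∀ i, s * (a i : ℝ) + t * (b i : ℝ) ∈ Icc (-1 : ℝ) 1 := by
    intro i
    obtain ⟨h1, h2⟩ := (a i).2
    obtain ⟨h3, h4⟩ := (b i).2
    constructor <;> nlinarith
  refine ⟨fun i => ⟨_, hmem i⟩, ?_⟩
  unfold Phi
  rw [← (Phi_summable hw a).tsum_const_smul, ← (Phi_summable hw b).tsum_const_smul,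
    ← ((Phi_summable hw a).const_smul s).tsum_add ((Phi_summable hw b).const_smul t)]
  apply tsum_congr
  intro i
  rw [smul_smul, smul_smul, ← add_smul]
  congr 1
  ring

theorem Phi_single {d : ℕ} {w : ℕ → U d} (i : ℕ) (τ : Icc (-1 : ℝ) 1) :
    ((τ : ℝ) * (1 / 2) ^ i) • w i ∈ range (Phi w) := by
  refine ⟨fun j => if j = i then τ else ⟨0, by norm_num, by norm_num⟩, ?_⟩
  unfold Phi
  rw [tsum_eq_single i]
  · simp
  · intro j hj
    simp [hj]

theorem not_finiteDimensional {d : ℕ} (hd : 1 ≤ d) : ¬ FiniteDimensional ℝ (U d) := by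
  intro hfd
  have a0 : Fin d := ⟨0, hd⟩
  let s : ℕ → Set (Fin d → ℝ) := fun n => {x | x a0 ∈ Ioo (1 / ((n : ℝ) + 2)) (1 / ((n : ℝ) + 1))}
  have hs : ∀ n, MeasurableSet (s n) := fun n => measurableSet_Ioo.preimage (measurable_pi_apply a0)
  have hμ : ∀ n, muOm d (s n) ≠ 0 := by
    intro n
    unfold muOm
    rw [Measure.restrict_apply (hs n)]
    have hopen : IsOpen (s n ∩ Om d) := by
      refine (isOpen_Ioo.preimage (continuous_apply a0)).inter ?_
      exact isOpen_set_pi finite_univ fun _ _ => isOpen_Ioo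
    refine (hopen.measure_pos volume ?_).ne'
    have hlt : 1 / ((n : ℝ) + 2) < 1 / ((n : ℝ) + 1) := by
      apply one_div_lt_one_div_of_lt <;> linarith [(Nat.cast_nonneg n : (0 : ℝ) ≤ n)]
    obtain ⟨r, hr1, hr2⟩ := exists_between hlt
    have h1 : 0 < 1 / ((n : ℝ) + 2) := by positivity
    have h2 : 1 / ((n : ℝ) + 1) ≤ 1 := by
      rw [div_le_one (by positivity)]
      linarith [(Nat.cast_nonneg n : (0 : ℝ) ≤ n)]
    refine ⟨fun _ => r, ⟨hr1, hr2⟩, ?_⟩
    intro a _
    exact ⟨by linarith, by linarith⟩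
  let v : ℕ → U d := fun n => indicatorConstLp 2 (hs n) (measure_ne_top _ _) (1 : ℝ)
  have hinner : ∀ m n, inner ℝ (v m) (v n) = (muOm d).real (s m ∩ s n) := by
    intro m n
    exact L2.real_inner_indicatorConstLp_one_indicatorConstLp_one (hs m) (hs n) _ _
  have hv0 : ∀ n, v n ≠ 0 := by
    intro n hn
    have := hinner n n
    rw [hn, inner_zero_left, inter_self] at this
    have h2 : (muOm d).real (s n) ≠ 0 := by
      rw [measureReal_def]
      exact (ENNReal.toReal_pos (hμ n) (measure_ne_top _ _)).ne'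
    exact h2 this.symm
  have hdisj : ∀ m n, m < n → s m ∩ s n = ∅ := by
    intro m n hmn
    ext x
    simp only [mem_inter_iff, mem_empty_iff_false, iff_false, not_and]
    rintro ⟨h1, _⟩ ⟨_, h4⟩
    have h5 : 1 / ((n : ℝ) + 1) ≤ 1 / ((m : ℝ) + 2) := by
      apply one_div_le_one_div_of_le (by positivity)
      have : (m : ℝ) + 1 ≤ n := by exact_mod_cast hmn
      linarith
    linarith
  have hli : LinearIndependent ℝ v := by
    apply linearIndependent_of_ne_zero_of_inner_eq_zero hv0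
    intro m n hmn
    rw [hinner]
    rcases lt_or_gt_of_ne hmn with h | h
    · rw [hdisj m n h]; simp
    · rw [inter_comm, hdisj n m h]; simp
  exact not_finite_iff_infinite.2 (inferInstance : Infinite ℕ) hli.finite

/-- The covariance operator of `ϱ` is strictly positive definite. -/
def CovPos {d : ℕ} (ϱ : Measure (U d)) : Prop :=
  ∀ v : U d, v ≠ 0 → 0 < ∫ u, (inner ℝ u v - ∫ u', inner ℝ u' v ∂ϱ) ^ 2 ∂ϱ

theorem exists_example {d : ℕ} (hd : 1 ≤ d) : ∃ (K : Set (U d)) (ϱ : Measure (U d)),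
    IsCompact K ∧ Convex ℝ K ∧
    (∀ V : Submodule ℝ (U d), FiniteDimensional ℝ V → ¬ K ⊆ V) ∧
    IsProbabilityMeasure ϱ ∧ ϱ Kᶜ = 0 ∧ CovPos ϱ ∧ HasDensityPart ϱ := by
  classical
  obtain ⟨w, hw0, hw1, hwt⟩ := exists_total d
  have hKc : IsCompact (range (Phi w)) := isCompact_range (Phi_continuous hw1)
  set K : Set (U d) := range (Phi w) with hK
  have hKm : MeasurableSet K := hKc.isClosed.measurableSet
  let z : ℕ → U d := fun i => ((1 / 2 : ℝ) ^ i) • w i
  have hz : ∀ i, z i ∈ K := by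
    intro i
    have h : ((1 : ℝ) * (1 / 2) ^ i) • w i ∈ K :=
      Phi_single (w := w) i ⟨1, by norm_num, le_rfl⟩
    rw [one_mul] at h
    exact h
  have hz' : ∀ i, -z i ∈ K := by
    intro i
    have h : ((-1 : ℝ) * (1 / 2) ^ i) • w i ∈ K :=
      Phi_single (w := w) i ⟨-1, le_rfl, by norm_num⟩
    rw [neg_one_mul, neg_smul] at h
    exact h
  have hcst : ∀ τ ∈ Icc (-1 : ℝ) 1, cst d τ ∈ K := by
    intro τ hτ
    have := Phi_single (w := w) 0 ⟨τ, hτ⟩
    rw [hw0, pow_zero, mul_one] at this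
    rw [cst_smul]
    exact this
  have hcm : Measurable (cst d) := (cst_continuous d).measurable
  set ν1 : Measure (U d) := Measure.map (cst d) (volume.restrict (Icc (-1 : ℝ) 1)) with hν1
  set ν2 : Measure (U d) := Measure.sum (fun i : ℕ => ((1 / 2 : ℝ≥0∞) ^ i) •
    (Measure.dirac (z i) + Measure.dirac (-z i))) with hν2
  have hν1u : ν1 univ = 2 := by
    rw [hν1, Measure.map_apply hcm MeasurableSet.univ, preimage_univ,
      Measure.restrict_apply_univ, Real.volume_Icc]
    norm_num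
  have hν2u : ν2 univ ≠ ∞ := by
    rw [hν2, Measure.sum_apply _ MeasurableSet.univ]
    have : ∀ i : ℕ, (((1 / 2 : ℝ≥0∞) ^ i) • (Measure.dirac (z i) + Measure.dirac (-z i))) univ =
        (1 / 2 : ℝ≥0∞) ^ i * 2 := by
      intro i
      rw [Measure.smul_apply, Measure.add_apply, measure_univ, measure_univ, smul_eq_mul]
      norm_num
    simp only [this]
    rw [ENNReal.tsum_mul_right, ENNReal.tsum_geometric]
    apply ENNReal.mul_ne_top _ (by norm_num)
    rw [ENNReal.inv_ne_top]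
    norm_num
  set ν : Measure (U d) := ν1 + ν2 with hν
  have hνu : ν univ ≠ ∞ := by
    rw [hν, Measure.add_apply, hν1u]
    exact ENNReal.add_ne_top.2 ⟨by norm_num, hν2u⟩
  have : IsFiniteMeasure ν := ⟨lt_top_iff_ne_top.2 hνu⟩
  have hνu0 : ν univ ≠ 0 := by
    rw [hν, Measure.add_apply, hν1u]
    simp
  have : NeZero ν := ⟨Measure.measure_univ_ne_zero.1 hνu0⟩
  have hinv0 : (ν univ)⁻¹ ≠ 0 := ENNReal.inv_ne_zero.2 hνu
  have hinvt : (ν univ)⁻¹ ≠ ∞ := ENNReal.inv_ne_top.2 hνu0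
  set ϱ : Measure (U d) := (ν univ)⁻¹ • ν with hϱ
  have hprob : IsProbabilityMeasure ϱ := isProbabilityMeasureSMul
  have hKϱ : ϱ Kᶜ = 0 := by
    have h1 : ν1 Kᶜ = 0 := by
      rw [hν1, Measure.map_apply hcm hKm.compl, Measure.restrict_apply (hcm hKm.compl)]
      have : cst d ⁻¹' Kᶜ ∩ Icc (-1) 1 = ∅ := by
        ext τ
        simp only [mem_inter_iff, mem_preimage, mem_compl_iff, mem_empty_iff_false, iff_false,
          not_and]
        intro h1 h2
        exact h1 (hcst τ h2)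
      rw [this, measure_empty]
    have h2 : ν2 Kᶜ = 0 := by
      rw [hν2, Measure.sum_apply _ hKm.compl, ENNReal.tsum_eq_zero]
      intro i
      rw [Measure.smul_apply, Measure.add_apply, Measure.dirac_apply' _ hKm.compl,
        Measure.dirac_apply' _ hKm.compl, indicator_of_notMem (by simpa using hz i),
        indicator_of_notMem (by simpa using hz' i)]
      simp
    have h3 : ν Kᶜ = 0 := by rw [hν, Measure.add_apply, h1, h2, add_zero]
    rw [hϱ, Measure.smul_apply, h3, smul_zero]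
  have hatom : ∀ i, ϱ {z i} ≠ 0 ∧ ϱ {-z i} ≠ 0 := by
    intro i
    have key : ∀ y : U d, (y = z i ∨ y = -z i) → ϱ {y} ≠ 0 := by
      intro y hy
      have h1 : (1 / 2 : ℝ≥0∞) ^ i ≤ ν {y} := by
        rw [hν, Measure.add_apply]
        refine le_trans ?_ (le_add_self)
        rw [hν2]
        refine le_trans ?_ (Measure.le_sum_apply _ _)
        refine le_trans ?_ (ENNReal.le_tsum i)
        rw [Measure.smul_apply, Measure.add_apply, smul_eq_mul]
        have h2 : (1 : ℝ≥0∞) ≤ Measure.dirac (z i) {y} + Measure.dirac (-z i) {y} := by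
          rcases hy with rfl | rfl
          · refine le_trans ?_ le_self_add
            rw [Measure.dirac_apply_of_mem (mem_singleton _)]
          · refine le_trans ?_ le_add_self
            rw [Measure.dirac_apply_of_mem (mem_singleton _)]
        calc (1 / 2 : ℝ≥0∞) ^ i = (1 / 2 : ℝ≥0∞) ^ i * 1 := (mul_one _).symm
          _ ≤ _ := by gcongr
      rw [hϱ, Measure.smul_apply, smul_eq_mul]
      apply mul_ne_zero hinv0
      intro h3
      rw [h3] at h1
      have h4 : (1 / 2 : ℝ≥0∞) ^ i ≠ 0 := by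
        apply pow_ne_zero
        norm_num
      exact h4 (le_antisymm h1 bot_le)
    exact ⟨key _ (Or.inl rfl), key _ (Or.inr rfl)⟩
  refine ⟨K, ϱ, hKc, Phi_convex hw1, ?_, hprob, hKϱ, ?_, ?_⟩
  · intro V hV hKV
    have hw : ∀ i, w i ∈ V := by
      intro i
      have h1 := hKV (hz i)
      have h2 : w i = ((1 / 2 : ℝ) ^ i)⁻¹ • z i := by
        simp only [z]
        rw [smul_smul, inv_mul_cancel₀ (by positivity), one_smul]
      rw [h2]
      exact V.smul_mem _ h1
    have hbot : Vᗮ = ⊥ := by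
      rw [Submodule.eq_bot_iff]
      intro v hv
      by_contra hv0
      obtain ⟨i, hi⟩ := hwt v hv0
      exact hi ((Submodule.mem_orthogonal V v).1 hv _ (hw i))
    rw [Submodule.orthogonal_eq_bot_iff] at hbot
    apply not_finiteDimensional hd
    rw [hbot] at hV
    exact Module.Finite.equiv (Submodule.topEquiv (R := ℝ) (M := U d))
  · intro v hv
    obtain ⟨i, hi⟩ := hwt v hv
    set c := ∫ u', inner ℝ u' v ∂ϱ with hc
    set F : U d → ℝ := fun u => (inner ℝ u v - c) ^ 2 with hF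
    have hFc : Continuous F := ((continuous_id.inner continuous_const).sub continuous_const).pow 2
    have hae : ∀ᵐ u ∂ϱ, u ∈ K := by
      rw [ae_iff]
      exact hKϱ
    obtain ⟨C, hC⟩ := hKc.exists_bound_of_continuousOn hFc.continuousOn
    have hint : Integrable F ϱ := Integrable.of_bound hFc.aestronglyMeasurable C
      (hae.mono fun u hu => hC u hu)
    rw [integral_pos_iff_support_of_nonneg (fun u => sq_nonneg _) hint]
    have ha : inner ℝ (z i) v ≠ 0 := by
      simp only [z]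
      rw [real_inner_smul_left]
      exact mul_ne_zero (by positivity) hi
    have hsup : z i ∈ Function.support F ∨ -z i ∈ Function.support F := by
      by_contra hcon
      push Not at hcon
      obtain ⟨h1, h2⟩ := hcon
      rw [Function.notMem_support] at h1 h2
      simp only [hF] at h1 h2
      rw [inner_neg_left] at h2
      have h3 : inner ℝ (z i) v - c = 0 := by
        exact pow_eq_zero_iff (two_ne_zero) |>.1 h1
      have h4 : -inner ℝ (z i) v - c = 0 := by
        exact pow_eq_zero_iff (two_ne_zero) |>.1 h2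
      apply ha
      linarith
    rcases hsup with h | h
    · exact (pos_iff_ne_zero.2 (hatom i).1).trans_le (measure_mono (singleton_subset_iff.2 h))
    · exact (pos_iff_ne_zero.2 (hatom i).2).trans_le (measure_mono (singleton_subset_iff.2 h))
  · refine ⟨(ν univ)⁻¹ • ν1, ?_, ?_, ((ν univ)⁻¹).toReal, ?_⟩
    · rw [hϱ, hν]
      intro s
      rw [Measure.smul_apply, Measure.smul_apply, smul_eq_mul, smul_eq_mul]
      refine mul_le_mul' le_rfl ?_
      rw [Measure.add_apply]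
      exact le_self_add
    · intro h0
      have := congrArg (fun μ : Measure (U d) => μ univ) h0
      simp only [Measure.smul_apply, hν1u, smul_eq_mul, Measure.coe_zero, Pi.zero_apply,
        mul_eq_zero] at this
      rcases this with h | h
      · exact hinv0 h
      · norm_num at h
    · intro a b hab
      rw [Measure.smul_apply, smul_eq_mul, ENNReal.ofReal_mul ENNReal.toReal_nonneg,
        ENNReal.ofReal_toReal hinvt]
      gcongr
      have hm : MeasurableSet {u : U d | a ≤ mean u ∧ mean u ≤ b} :=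
        ((isClosed_le continuous_const (mean_continuous d)).inter
          (isClosed_le (mean_continuous d) continuous_const)).measurableSet
      rw [hν1, Measure.map_apply hcm hm]
      refine (Measure.restrict_apply_le _ _).trans ?_
      have : cst d ⁻¹' {u : U d | a ≤ mean u ∧ mean u ≤ b} = Icc a b := by
        ext τ
        simp [mean_cst]
      rw [this, Real.volume_Icc]

/-- **The upper bound `1/2` for `β⋆` is not sharp for `α < 1`.** (i) For every `d`, every compact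
`𝒦` and every probability measure `ϱ` such that the law of the mean `∫_Ω u` has a nonzero part with
bounded density, `β⋆(K^α(𝒦))_X ≤ α/2` for all `α > 0`.  (ii) For every `d ≥ 1` there are a compact
convex `𝒦`, in no finite-dimensional subspace, and a probability measure `ϱ` supported in `𝒦` with
strictly positive definite covariance, such that `β⋆(K^α(𝒦))_X ≤ α/2` for all `α > 0`; so
`β⋆(K^α(𝒦))_X < 1/2` for all `0 < α < 1`. -/
theorem result :
    (∀ (d : ℕ) (K : Set (U d)) (ϱ : Measure (U d)), IsCompact K → IsProbabilityMeasure ϱ →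
      HasDensityPart ϱ → ∀ α : ℝ, 0 < α → betaStar K ϱ (ClassK K α) ≤ ((α / 2 : ℝ) : EReal)) ∧
    (∀ d : ℕ, 1 ≤ d → ∃ (K : Set (U d)) (ϱ : Measure (U d)),
      IsCompact K ∧ Convex ℝ K ∧
      (∀ V : Submodule ℝ (U d), FiniteDimensional ℝ V → ¬ K ⊆ V) ∧
      IsProbabilityMeasure ϱ ∧ ϱ Kᶜ = 0 ∧ CovPos ϱ ∧
      (∀ α : ℝ, 0 < α → betaStar K ϱ (ClassK K α) ≤ ((α / 2 : ℝ) : EReal)) ∧
      (∀ α : ℝ, 0 < α → α < 1 → betaStar K ϱ (ClassK K α) < ((1 / 2 : ℝ) : EReal))) := by
  refine ⟨fun d K ϱ hK hp hϱ α hα => betaStar_le hK hϱ hα, fun d hd => ?_⟩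
  obtain ⟨K, ϱ, h1, h2, h3, h4, h5, h6, h7⟩ := exists_example hd
  refine ⟨K, ϱ, h1, h2, h3, h4, h5, h6, fun α hα => betaStar_le h1 h7 hα, fun α hα hα1 => ?_⟩
  refine (betaStar_le h1 h7 hα).trans_lt ?_
  rw [EReal.coe_lt_coe_iff]
  linarith

end

end Pool.Agent.Results.MP_ae7024_an.SlowRate
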